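import Pool.Agent.H13.EdgeGameTen

/-!
# The edge-distinguishing game on the triangular ladder `T_10`

The problem asks whether Player 2 wins the game on `T_n` for every `n ≥ 4`. This is false: Player 1
has a winning strategy on `T_10`, played with `λ(T_10) = 7` colours. The strategy (a tree with 1294
moves of Player 1) is checked by evaluation in the kernel, with the help of a soundness theorem
(`Pool.Agent.H13.check_sound`).
-/

namespace Pool.Agent.Results.MP_08a4a0_co.PlayerOneWinsT10

open Pool.Agent.H13

/-- Player 1 has a winning strategy in the edge-distinguishing game on `T_10`, played with
`λ(T_10)` colours. -/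
theorem result :
    PlayerOneWins (triangularLadder 10) (edgeDistinguishingNumber (triangularLadder 10)) :=
  playerOneWins_ten

end Pool.Agent.Results.MP_08a4a0_co.PlayerOneWinsT10
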